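import Pool.Agent.helper90.IV.Spec

/-! Row iv:DR of MP_26dbae_co. -/

set_option autoImplicit false

namespace Pool.Agent.helper54.IV

open Pool.Agent.IV

theorem DR : DR_stmt := by
  classical
  intro τ P b tok X hd hX
  let Bd : Finset (Fin (P + b)) := Finset.univ.filter fun j => ¬ Disjoint (tok j) X
  have h0 : ∀ j ∈ Bd, ∃ t, t ∈ tok j ∧ t ∈ X := by
    intro j hj
    exact Finset.not_disjoint_iff.1 (Finset.mem_filter.1 hj).2
  choose f hf using h0
  have h1 : Bd.card ≤ X.card := by
    rw [← Finset.card_attach (s := Bd)]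
    apply Finset.card_le_card_of_injOn (fun j => f j.1 j.2)
    · intro j _
      exact (hf j.1 j.2).2
    · intro j _ j' _ h
      by_contra hne
      have hne' : j.1 ≠ j'.1 := fun h0 => hne (Subtype.ext h0)
      refine Finset.disjoint_left.1 (hd j.1 j'.1 hne') (hf j.1 j.2).1 ?_
      have h' : f j.1 j.2 = f j'.1 j'.2 := h
      rw [h']
      exact (hf j'.1 j'.2).1
  have h2 : P ≤ (Bdᶜ).card := by
    rw [Finset.card_compl, Fintype.card_fin]
    omega
  obtain ⟨S, hS, hSc⟩ := Finset.exists_subset_card_eq h2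
  refine ⟨fun j => S.orderEmbOfFin hSc j, (S.orderEmbOfFin hSc).injective, ?_⟩
  intro j
  have h3 : S.orderEmbOfFin hSc j ∈ S := Finset.orderEmbOfFin_mem S hSc j
  have h4 := Finset.mem_compl.1 (hS h3)
  by_contra h5
  exact h4 (Finset.mem_filter.2 ⟨Finset.mem_univ _, h5⟩)

end Pool.Agent.helper54.IV
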